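import Mathlib
import Pool.Agent.N233.GM.Law

set_option autoImplicit false

/-!
# The question in random models of the primes sieved up to a power

The question is whether every positive odd `n` is a sum of four squares `x² + y² + z² + w²` such that
`p = x² + 3y² + 5z² + 7w²` and `p - 2` are both prime.  We answer it for all large odd `n`, with an
asymptotic formula for the number of representations, in random models of the primes with a growing
sieve: the integers are decided one after the other, no `n` with a prime factor at most `z(n)` is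
chosen, where `z` is ANY function with `z(n) ≤ n ^ δ`, `δ > 0` fixed and small, and the conditional
probability of choosing `n + 1` (without prime factors at most `z(n + 1)`) given the past is asymptotic
to `∏_{q ≤ z(n + 1)} (1 - 1/q)⁻¹ / log n`.  No independence and no rate is assumed, and `z` need not be
monotone.  For `z(n) = n ^ δ` these are random subsets, of positive relative density, of the integers
without prime factors up to `n ^ δ`.
-/

open MeasureTheory Filter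
open scoped Topology

namespace Pool.Agent.Results.MP_0ad054_nt.GrowingSieveModels

/-- the representations of `n` as a sum of four squares -/
def four (n : ℕ) : Set (ℤ × ℤ × ℤ × ℤ) :=
  {v | (n : ℤ) = v.1 ^ 2 + v.2.1 ^ 2 + v.2.2.1 ^ 2 + v.2.2.2 ^ 2}

/-- the value `x² + 3y² + 5z² + 7w²` -/
def form (v : ℤ × ℤ × ℤ × ℤ) : ℕ :=
  (v.1 ^ 2 + 3 * v.2.1 ^ 2 + 5 * v.2.2.1 ^ 2 + 7 * v.2.2.2 ^ 2).toNat

/-- the number of `(x, y, z, w)` with `n = x² + y² + z² + w²` such that `p = x² + 3y² + 5z² + 7w²` and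
`p - 2` both belong to `S` -/
noncomputable def R (S : Set ℕ) (n : ℕ) : ℕ := {v | v ∈ four n ∧ form v ∈ S ∧ form v - 2 ∈ S}.ncard

/-- `∏_{q ≤ x} (1 - 1/q)⁻¹`, `q` prime -/
noncomputable def W (x : ℕ) : ℝ := ∏ q ∈ (Finset.Icc 1 x).filter Nat.Prime, (1 - (q : ℝ)⁻¹)⁻¹

open Classical in
/-- the density of the model at `m`: `W (z m) / log m` if `m` has no prime factor at most `z m`, and `0`
otherwise -/
noncomputable def rho (z : ℕ → ℕ) (m : ℕ) : ℝ :=
  if ∀ q, q.Prime → q ≤ z m → ¬ q ∣ m then W (z m) / Real.log m else 0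

/-- the expected number of representations: the sum of `rho (p - 2) * rho p` over all `(x, y, z, w)` with
`n = x² + y² + z² + w²`, `p = x² + 3y² + 5z² + 7w²` -/
noncomputable def E (z : ℕ → ℕ) (n : ℕ) : ℝ := ∑ᶠ v ∈ four n, rho z (form v - 2) * rho z (form v)

open Pool.Agent.R494.RC Pool.Agent.W65.FS

/-- the four coordinates -/
def coords (X : Fin 4 → ℤ) : ℤ × ℤ × ℤ × ℤ := (X 0, X 1, X 2, X 3)

lemma coords_inj : Function.Injective coords := by
  intro X Y h
  unfold coords at h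
  simp only [Prod.mk.injEq] at h
  obtain ⟨h0, h1, h2, h3⟩ := h
  funext i
  fin_cases i
  · exact h0
  · exact h1
  · exact h2
  · exact h3

lemma form_coords (X : Fin 4 → ℤ) : form (coords X) = val X := rfl

open Classical in
lemma four_eq (n : ℕ) : four n = (((vec n).image coords : Finset (ℤ × ℤ × ℤ × ℤ)) : Set (ℤ × ℤ × ℤ × ℤ)) := by
  ext ⟨x, y, z, w⟩
  rw [Finset.coe_image, Set.mem_image]
  constructor
  · intro h1
    unfold four at h1
    rw [Set.mem_ofPred_eq] at h1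
    refine ⟨![x, y, z, w], ?_, rfl⟩
    rw [Finset.mem_coe, mem_vec, Fin.sum_univ_four, h1]
    rfl
  · rintro ⟨X, hX, hXe⟩
    rw [Finset.mem_coe, mem_vec, Fin.sum_univ_four] at hX
    unfold coords at hXe
    simp only [Prod.mk.injEq] at hXe
    obtain ⟨rfl, rfl, rfl, rfl⟩ := hXe
    exact hX.symm

lemma W_eq : W = Pool.Agent.N233.GM.W := rfl

lemma rho_eq (z : ℕ → ℕ) (m : ℕ) : rho z m = Pool.Agent.N233.GM.rho z m := rfl

open Classical in
lemma E_eq (z : ℕ → ℕ) (n : ℕ) :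
    E z n = ∑ X ∈ Pool.Agent.N233.GM.goodG {m | Pool.Agent.N233.GM.Rough z m} n,
      Pool.Agent.N233.GM.rho z (val X - 2) * Pool.Agent.N233.GM.rho z (val X) := by
  unfold E
  rw [four_eq, finsum_mem_coe_finset, Finset.sum_image (fun X _ Y _ h => coords_inj h)]
  unfold Pool.Agent.N233.GM.goodG
  rw [Finset.sum_filter]
  refine Finset.sum_congr rfl fun X _ => ?_
  rw [form_coords, rho_eq, rho_eq]
  by_cases h1 : Pool.Agent.N233.GM.Rough z (val X)
  · by_cases h2 : Pool.Agent.N233.GM.Rough z (val X - 2)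
    · rw [if_pos ⟨h1, h2⟩]
    · rw [if_neg (fun h => h2 h.2)]
      unfold Pool.Agent.N233.GM.rho
      rw [if_neg h2, zero_mul]
  · rw [if_neg (fun h => h1 h.1)]
    unfold Pool.Agent.N233.GM.rho
    rw [if_neg h1, mul_zero]

lemma R_eq {Ω : Type} {A : ℕ → Set Ω} (z : ℕ → ℕ) (hcop : ∀ n, ¬ Pool.Agent.N233.GM.Rough z n → A n = ∅)
    (ω : Ω) (n : ℕ) :
    (R {k : ℕ | ω ∈ A k} n : ℝ) = ∑ X ∈ Pool.Agent.N233.GM.goodG {m | Pool.Agent.N233.GM.Rough z m} n,
      Pool.Agent.R528.RM.In A (val X - 2) ω * Pool.Agent.R528.RM.In A (val X) ω := by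
  classical
  have h0 : {v | v ∈ four n ∧ form v ∈ {k : ℕ | ω ∈ A k} ∧ form v - 2 ∈ {k : ℕ | ω ∈ A k}} =
      coords '' (((vec n).filter (fun X => ω ∈ A (val X) ∧ ω ∈ A (val X - 2)) : Finset (Fin 4 → ℤ)) :
        Set (Fin 4 → ℤ)) := by
    ext v
    rw [Set.mem_ofPred_eq, four_eq, Finset.coe_image, Set.mem_image, Set.mem_image]
    constructor
    · rintro ⟨⟨X, hX, rfl⟩, h1, h2⟩
      exact ⟨X, Finset.mem_coe.2 (Finset.mem_filter.2 ⟨hX, h1, h2⟩), rfl⟩
    · rintro ⟨X, hX, rfl⟩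
      obtain ⟨h1, h2, h3⟩ := Finset.mem_filter.1 (Finset.mem_coe.1 hX)
      exact ⟨⟨X, h1, rfl⟩, h2, h3⟩
  have h1 : (vec n).filter (fun X => ω ∈ A (val X) ∧ ω ∈ A (val X - 2)) =
      (Pool.Agent.N233.GM.goodG {m | Pool.Agent.N233.GM.Rough z m} n).filter
        (fun X => ω ∈ A (val X) ∧ ω ∈ A (val X - 2)) := by
    ext X
    unfold Pool.Agent.N233.GM.goodG
    rw [Finset.mem_filter, Finset.mem_filter, Finset.mem_filter]
    constructor
    · rintro ⟨g1, g2, g3⟩
      refine ⟨⟨g1, ?_, ?_⟩, g2, g3⟩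
      · by_contra hc
        rw [hcop _ hc] at g2
        exact g2
      · by_contra hc
        rw [hcop _ hc] at g3
        exact g3
    · rintro ⟨⟨g1, -, -⟩, g2, g3⟩
      exact ⟨g1, g2, g3⟩
  unfold R
  rw [h0, Set.ncard_image_of_injective _ coords_inj, Set.ncard_coe_finset, h1, Finset.card_filter]
  push_cast
  refine Finset.sum_congr rfl fun X _ => ?_
  unfold Pool.Agent.R528.RM.In
  by_cases h2 : ω ∈ A (val X - 2)
  · by_cases h3 : ω ∈ A (val X)
    · simp [h2, h3]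
    · simp [h2, h3]
  · simp [h2]

/-- **All large odd numbers in models with a growing sieve.**  For every `ε > 0` there is `δ > 0` such
that the following holds.  Let `S n` be the event that `n` is chosen, adapted to a filtration `ℱ`.  Let
`z(n)` be natural numbers with `z(n) ≤ n ^ δ` for all large `n`, let no `n` with a prime factor at most
`z(n)` be chosen, and let the conditional probability of `S (n + 1)` given `ℱ n`, times
`log n / ∏_{q ≤ z(n + 1)} (1 - 1/q)⁻¹`, tend to `1` along the `n` for which `n + 1` has no prime factor at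
most `z(n + 1)`, almost surely.  Let `R(n)` be the number of `(x, y, z, w)` with
`n = x² + y² + z² + w²` for which `p = x² + 3y² + 5z² + 7w²` and `p - 2` are chosen, and `E(n)` the
expected number.  (1) `E(n) ≥ n ^ (1 - ε)` for all large odd `n`.  (2) Almost surely `R(n) / E(n)` tends
to `1` as `n → ∞`, `n` odd.  (3) Almost surely `R(n) ≥ n ^ (1 - ε)` for all large odd `n`. -/
theorem result (ε : ℝ) (hε : 0 < ε) : ∃ δ : ℝ, 0 < δ ∧
    ∀ {Ω : Type} [mΩ : MeasurableSpace Ω] (μ : Measure Ω) [IsProbabilityMeasure μ]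
    (ℱ : Filtration ℕ mΩ) (S : ℕ → Set Ω) (_ : ∀ n, MeasurableSet[ℱ n] (S n)) (z : ℕ → ℕ)
    (_ : ∀ᶠ n : ℕ in atTop, (z n : ℝ) ≤ (n : ℝ) ^ δ)
    (_ : ∀ n, (∃ q, q.Prime ∧ q ≤ z n ∧ q ∣ n) → S n = ∅)
    (_ : ∀ᵐ ω ∂μ, Tendsto (fun n : ℕ =>
      (μ[(S (n + 1)).indicator (fun _ => (1 : ℝ)) | ℱ n]) ω * Real.log n / W (z (n + 1)))
      (atTop ⊓ 𝓟 {n : ℕ | ∀ q, q.Prime → q ≤ z (n + 1) → ¬ q ∣ n + 1}) (𝓝 1)),
    (∀ᶠ n : ℕ in atTop, Odd n → (n : ℝ) ^ (1 - ε) ≤ E z n) ∧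
    (∀ᵐ ω ∂μ, Tendsto (fun n : ℕ => (R {k | ω ∈ S k} n : ℝ) / E z n) (atTop ⊓ 𝓟 {n : ℕ | Odd n}) (𝓝 1)) ∧
    (∀ᵐ ω ∂μ, ∀ᶠ n : ℕ in atTop, Odd n → (n : ℝ) ^ (1 - ε) ≤ R {k | ω ∈ S k} n) := by
  classical
  obtain ⟨δ₁, hδ₁, hsmall⟩ := Pool.Agent.N233.GM.W_small
  obtain ⟨δ₂, hδ₂, hmany₂⟩ := Pool.Agent.N233.GM.many_rough (ε / 2) (by positivity)
  obtain ⟨δ₃, hδ₃, hmany₃⟩ := Pool.Agent.N233.GM.many_rough (1 / 8) (by norm_num)
  refine ⟨min δ₁ (min δ₂ δ₃), lt_min hδ₁ (lt_min hδ₂ hδ₃), ?_⟩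
  intro Ω mΩ μ hμ ℱ S hS z hz hsieve hd
  have hpow : ∀ δ' : ℝ, min δ₁ (min δ₂ δ₃) ≤ δ' → ∀ᶠ n : ℕ in atTop, (z n : ℝ) ≤ (n : ℝ) ^ δ' := by
    intro δ' hδ'
    filter_upwards [hz, eventually_ge_atTop 1] with n h1 h2
    exact h1.trans (Real.rpow_le_rpow_of_exponent_le (by exact_mod_cast h2) hδ')
  have hV := hsmall z (hpow δ₁ (min_le_left _ _))
  have hm2 := hmany₂ z (hpow δ₂ ((min_le_right _ _).trans (min_le_left _ _)))
  have hm3 := hmany₃ z (hpow δ₃ ((min_le_right _ _).trans (min_le_right _ _)))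
  have hcop : ∀ n, ¬ Pool.Agent.N233.GM.Rough z n → S n = ∅ := by
    intro n hn
    unfold Pool.Agent.N233.GM.Rough at hn
    push Not at hn
    exact hsieve n hn
  have hprof := Pool.Agent.N233.GM.profile (μ := μ) (ℱ := ℱ) (A := S) z hV hcop hd
  have hlow : ∀ᶠ m : ℕ in atTop, m ∈ {m | Pool.Agent.N233.GM.Rough z m} →
      1 / Real.log m ≤ Pool.Agent.N233.GM.rho1 z m := by
    filter_upwards [hV] with m h1 h2
    rw [Pool.Agent.N233.GM.rho1_eq z m h1]
    unfold Pool.Agent.N233.GM.rho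
    rw [if_pos h2]
    have := Pool.Agent.N233.GM.W_ge (z m)
    have := Real.log_natCast_nonneg m
    gcongr
  have hlaw := Pool.Agent.N233.GM.law_gen (μ := μ) (ℱ := ℱ) (A := S) hS (Pool.Agent.N233.GM.rho1 z)
    (Pool.Agent.N233.GM.rho1_bounds z) hprof {m | Pool.Agent.N233.GM.Rough z m} hlow hm3
  have hE2 := Pool.Agent.N233.GM.expected_low ε hε z hm2
  obtain ⟨m1, hm1⟩ := eventually_atTop.1 hV
  have hsum : ∀ n : ℕ, m1 + 3 ≤ n →
      ∑ X ∈ Pool.Agent.N233.GM.goodG {m | Pool.Agent.N233.GM.Rough z m} n,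
        Pool.Agent.N233.GM.rho1 z (val X - 2) * Pool.Agent.N233.GM.rho1 z (val X) = E z n := by
    intro n hn
    rw [E_eq]
    refine Finset.sum_congr rfl fun X hX => ?_
    have h1 := val_low (Finset.mem_filter.1 hX).1
    rw [Pool.Agent.N233.GM.rho1_eq z _ (hm1 _ (by omega)), Pool.Agent.N233.GM.rho1_eq z _ (hm1 _ (by omega))]
  have hElow : ∀ᶠ n : ℕ in atTop, Odd n → 2 * (n : ℝ) ^ (1 - ε) ≤ E z n := by
    filter_upwards [hE2] with n h1 hn
    rw [E_eq]
    exact h1 hn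
  have key : ∀ᵐ ω ∂μ, ∀ η : ℝ, 0 < η → ∀ᶠ n : ℕ in atTop, Odd n →
      |(R {k | ω ∈ S k} n : ℝ) - E z n| ≤ η * E z n := by
    filter_upwards [hlaw] with ω hω η hη
    filter_upwards [hω η hη, eventually_ge_atTop (m1 + 3)] with n g1 g2 hn
    have g3 := g1 hn
    rw [hsum n g2] at g3
    rw [R_eq z hcop ω n]
    exact g3
  refine ⟨?_, ?_, ?_⟩
  · filter_upwards [hElow, eventually_ge_atTop 1] with n h1 h2 hn
    have h3 : (0 : ℝ) < (n : ℝ) ^ (1 - ε) := Real.rpow_pos_of_pos (by exact_mod_cast h2) _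
    linarith [h1 hn]
  · filter_upwards [key] with ω hω
    rw [Metric.tendsto_nhds]
    intro η hη
    rw [eventually_inf_principal]
    filter_upwards [hω (η / 2) (by positivity), hElow, eventually_ge_atTop 1] with n h1 h2 h3 hn
    have hn' : Odd n := hn
    have h4 : (0 : ℝ) < (n : ℝ) ^ (1 - ε) := Real.rpow_pos_of_pos (by exact_mod_cast h3) _
    have h5 : 0 < E z n := by linarith [h2 hn']
    rw [Real.dist_eq, show (R {k | ω ∈ S k} n : ℝ) / E z n - 1 = ((R {k | ω ∈ S k} n : ℝ) - E z n) / E z n by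
      field_simp, abs_div, abs_of_pos h5, div_lt_iff₀ h5]
    have := h1 hn'
    nlinarith
  · filter_upwards [key] with ω hω
    filter_upwards [hω (1 / 2) (by norm_num), hElow] with n h1 h2 hn
    have h3 := (abs_le.1 (h1 hn)).1
    have h4 := h2 hn
    linarith

end Pool.Agent.Results.MP_0ad054_nt.GrowingSieveModels
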